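import Pool.Agent.T9h44.NK.SpecA

/-!
# Project NK, piece (TR), core (helper48): the stabilizer of a vertex acts on the figure
-/

set_option autoImplicit false

open Set
open scoped RealInnerProductSpace

namespace Pool.Agent.T9h48.NK

open Pool.Agent.T9h98.DC Pool.Agent.T9h44.NK

variable {d : ℕ}

/-- `ι` maps onto the orthogonal complement of `n` -/
theorem exists_iota {n : E (d + 1)} {ι : E d →ₗᵢ[ℝ] E (d + 1)} (hn : n ≠ 0) (hO : Ort n ι)
    (y : E (d + 1)) (hy : ⟪n, y⟫ = 0) : ∃ x, ι x = y := by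
  have h1 : LinearMap.range ι.toLinearMap ≤ (ℝ ∙ n)ᗮ := by
    rintro _ ⟨x, rfl⟩
    rw [Submodule.mem_orthogonal_singleton_iff_inner_right]
    exact hO x
  have h2 : Module.finrank ℝ (LinearMap.range ι.toLinearMap) = d := by
    rw [LinearMap.finrank_range_of_inj ι.injective]
    simp
  have h3 : Module.finrank ℝ (ℝ ∙ n)ᗮ = d := by
    have : Fact (Module.finrank ℝ (E (d + 1)) = d + 1) := ⟨by simp⟩
    exact Submodule.finrank_orthogonal_span_singleton hn
  have h4 : LinearMap.range ι.toLinearMap = (ℝ ∙ n)ᗮ :=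
    Submodule.eq_of_le_of_finrank_eq h1 (h2.trans h3.symm)
  have h5 : y ∈ LinearMap.range ι.toLinearMap := by
    rw [h4, Submodule.mem_orthogonal_singleton_iff_inner_right]
    exact hy
  exact h5

/-- the figures of the images under `h` are the images of the figures under `k` -/
theorem fig_image {v n : E (d + 1)} {ι : E d →ₗᵢ[ℝ] E (d + 1)}
    {h : E (d + 1) ≃ₗᵢ[ℝ] E (d + 1)} {k : E d ≃ₗᵢ[ℝ] E d} (hv : h v = v) (hn : h n = n)
    (hk : ∀ x, ι (k x) = h (ι x)) (F : Set (E (d + 1))) :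
    fig v n ι (h '' F) = k '' fig v n ι F := by
  ext x
  constructor
  · rintro ⟨t, ht, y, hy, hyx⟩
    refine ⟨k.symm x, ⟨t, ht, ?_⟩, k.apply_symm_apply x⟩
    have e : h (v + t • (n + ι (k.symm x))) = h y := by
      rw [hyx, map_add, map_smul, map_add, hv, hn, ← hk, k.apply_symm_apply]
    rw [h.injective e]
    exact hy
  · rintro ⟨x', ⟨t, ht, hx'⟩, rfl⟩
    refine ⟨t, ht, _, hx', ?_⟩
    rw [map_add, map_smul, map_add, hv, hn, hk]

/-- an element of the stabilizer of `v` which fixes `n` induces an isometry of the figure -/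
theorem core1 {H : Subgroup (E (d + 1) ≃ₗᵢ[ℝ] E (d + 1))} {v n : E (d + 1)}
    {ι : E d →ₗᵢ[ℝ] E (d + 1)} (hn0 : n ≠ 0) (hO : Ort n ι) (hst : ∀ h ∈ H, h v = v → h n = n)
    {h : E (d + 1) ≃ₗᵢ[ℝ] E (d + 1)} (hh : h ∈ H) (hv : h v = v) :
    ∃ k ∈ figH H v ι, ∀ F, fig v n ι (h '' F) = k '' fig v n ι F := by
  have hn : h n = n := hst h hh hv
  have h1 : ∀ x : E d, ∃ x', ι x' = h (ι x) := fun x => by
    apply exists_iota hn0 hO
    rw [← hn, h.inner_map_map]
    exact hO x
  choose f hf using h1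
  have hsymn : h.symm n = n := by
    rw [← hn, h.symm_apply_apply, hn]
  have h2 : ∀ x : E d, ∃ x', ι x' = h.symm (ι x) := fun x => by
    apply exists_iota hn0 hO
    rw [← hsymn, h.symm.inner_map_map]
    exact hO x
  choose g hg using h2
  let k : E d ≃ₗᵢ[ℝ] E d :=
    { toFun := f
      invFun := g
      left_inv := fun x => ι.injective (by rw [hg, hf, h.symm_apply_apply])
      right_inv := fun x => ι.injective (by rw [hf, hg, h.apply_symm_apply])
      map_add' := fun x y => ι.injective (by rw [hf, map_add, map_add, map_add, hf, hf])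
      map_smul' := fun r x => ι.injective (by
        rw [hf, map_smul, map_smul, RingHom.id_apply, map_smul, hf])
      norm_map' := fun x => by
        show ‖f x‖ = ‖x‖
        rw [← ι.norm_map (f x), hf, h.norm_map, ι.norm_map] }
  have hk : ∀ x, ι (k x) = h (ι x) := hf
  exact ⟨k, ⟨h, hh, hv, hk⟩, fig_image hv hn hk⟩

/-- every element of `figH` comes from an element of the stabilizer -/
theorem core2 {H : Subgroup (E (d + 1) ≃ₗᵢ[ℝ] E (d + 1))} {v n : E (d + 1)}
    {ι : E d →ₗᵢ[ℝ] E (d + 1)} (hst : ∀ h ∈ H, h v = v → h n = n)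
    {k : E d ≃ₗᵢ[ℝ] E d} (hk : k ∈ figH H v ι) :
    ∃ h ∈ H, h v = v ∧ ∀ F, fig v n ι (h '' F) = k '' fig v n ι F := by
  obtain ⟨h, hh, hv, hk'⟩ := hk
  exact ⟨h, hh, hv, fig_image hv (hst h hh hv) hk'⟩

/-- the image of a face -/
theorem face_image {P F : Set (E d)} (h : E d ≃ₗᵢ[ℝ] E d) (hP : h '' P = P) (hF : IsFace P F) :
    IsFace P (h '' F) := by
  obtain ⟨hne, hex⟩ := hF
  refine ⟨hne.image _, fun _ => ?_⟩
  obtain ⟨l, hl⟩ := hex hne
  refine ⟨l.comp (h.symm.toContinuousLinearEquiv : E d →L[ℝ] E d), ?_⟩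
  ext x
  constructor
  · rintro ⟨y, hy, rfl⟩
    rw [hl] at hy
    refine ⟨hP ▸ mem_image_of_mem _ hy.1, fun z hz => ?_⟩
    rw [← hP] at hz
    obtain ⟨w, hw, rfl⟩ := hz
    simpa using hy.2 w hw
  · rintro ⟨hx, hmax⟩
    have hx' := hx
    rw [← hP] at hx'
    obtain ⟨y, hy, rfl⟩ := hx'
    refine ⟨y, ?_, rfl⟩
    rw [hl]
    refine ⟨hy, fun z hz => ?_⟩
    have := hmax (h z) (hP ▸ mem_image_of_mem _ hz)
    simpa using this

/-- the dimension of the image -/
theorem dm_image (F : Set (E d)) (h : E d ≃ₗᵢ[ℝ] E d) : dm (h '' F) = dm F := by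
  have e : vectorSpan ℝ (h '' F) = (vectorSpan ℝ F).map h.toLinearEquiv.toLinearMap := by
    have := AffineMap.map_vectorSpan (f := h.toLinearEquiv.toLinearMap.toAffineMap)
      (s := F)
    simpa using this.symm
  unfold dm
  rw [e]
  exact h.toLinearEquiv.finrank_map_eq _

/-- the image of a chain -/
def mapCh {P : Set (E d)} {j : ℕ} (h : E d ≃ₗᵢ[ℝ] E d) (hP : h '' P = P) (Φ : Ch P j) : Ch P j where
  face i := h '' Φ.face i
  isFace i := face_image h hP (Φ.isFace i)
  dim i := (dm_image _ _).trans (Φ.dim i)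
  mono _ _ hi := image_mono (Φ.mono hi)

end Pool.Agent.T9h48.NK
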