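import Pool.Agent.T9h67.NK.Ext
import Pool.Agent.T9h44.NK.SpecB
import Pool.Agent.T9h48.NK.TrCore

/-!
# Project NK (helper48): extension of chains, monotonicity of `PT`
-/

set_option autoImplicit false

open Set
open scoped RealInnerProductSpace

namespace Pool.Agent.T9h48.NK

open Pool.Agent.T9h98.DC Pool.Agent.T9h44.NK

theorem nonempty_of {d : ℕ} {P : Set (E d)} (h : IsPolytope P) : P.Nonempty :=
  h.2.mono interior_subset

theorem pres_bot {d : ℕ} (P : Set (E d)) : Pres (⊥ : Subgroup (E d ≃ₗᵢ[ℝ] E d)) P := by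
  intro h hh
  rw [Subgroup.mem_bot] at hh
  subst hh
  change (fun x => x) '' P = P
  exact image_id P

/-- every chain extends to a flag -/
theorem extend (hF : S_FACES) (hVF : S_VF) (hI : S_INV) (hι : S_IOTA) (hSH : S_SH) (hE : S_EXT) :
    ∀ (i d : ℕ) (P : Set (E (d + 1))), IsPolytope P → ∀ (hi : i ≤ d + 1) (Φ : Ch P i),
      ∃ Ψ : Ch P (d + 1), ∀ l : Fin i, Ψ.face (Fin.castLE hi l) = Φ.face l := by
  intro i
  induction i with
  | zero =>
    intro d P hP hi Φ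
    obtain ⟨x, hx⟩ := ((hF (d + 1) P hP.1).2.2.2.2.1 (nonempty_of hP)).2
    obtain ⟨Ψ, -⟩ := hE d P x hP hx
    exact ⟨Ψ, fun l => l.elim0⟩
  | succ i ih =>
    intro d P hP hi Φ
    cases d with
    | zero =>
      obtain rfl : i = 0 := by omega
      exact ⟨Φ, fun l => rfl⟩
    | succ d =>
      obtain ⟨v, hv0⟩ : ∃ w, Φ.face 0 = {w} := by
        refine (hF (d + 1 + 1) P hP.1).2.2.2.2.2.2.1 _ (Φ.isFace 0) ?_
        rw [Φ.dim 0]
        rfl
      have hv : Vx P v := by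
        have := Φ.isFace 0
        rw [hv0] at this
        exact this
      obtain ⟨n, hn0, hn, -⟩ := hI (d + 1 + 1) P v ⊥ hP.1 hv
        (Pool.Agent.T9h67.NK.exists_ne hP v) (pres_bot P)
      obtain ⟨ι, hort, -⟩ := hι (d + 1) n hn0
      obtain ⟨hfig, -, -, hdet⟩ := hVF (d + 1) P v n ι hP hv hn hn0 hort
      have hsh := hSH (d + 1) P v n ι hP hv hn hn0 hort
      obtain ⟨Φ', h1⟩ := (hsh i).2 Φ hv0
      obtain ⟨Ψ', h2⟩ := ih d (fig v n ι P) hfig (by omega) Φ'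
      obtain ⟨Ψ, h3, h4⟩ := (hsh (d + 1)).1 Ψ'
      refine ⟨Ψ, fun l => ?_⟩
      refine Fin.cases ?_ (fun l => ?_) l
      · rw [hv0]
        exact h3
      · have e : Fin.castLE hi l.succ = (Fin.castLE (by omega : i ≤ d + 1) l).succ := rfl
        have m1 : v ∈ Φ.face l.succ := by
          apply Φ.mono (Fin.zero_le _)
          rw [hv0]
          rfl
        have m2 : v ∈ Ψ.face (Fin.castLE (by omega : i ≤ d + 1) l).succ := by
          apply Ψ.mono (Fin.zero_le _)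
          rw [h3]
          rfl
        have h5 : fig v n ι (Ψ.face (Fin.castLE (by omega : i ≤ d + 1) l).succ) =
            fig v n ι (Φ.face l.succ) := by
          rw [h4, h1, h2]
        rw [e]
        exact (hdet _ _ (Ψ.isFace _) (Φ.isFace _) m2 m1 h5.subset).antisymm
          (hdet _ _ (Φ.isFace _) (Ψ.isFace _) m1 m2 h5.symm.subset)

/-- the beginning of a chain -/
def trunc {d : ℕ} {P : Set (E d)} {i j : ℕ} (hij : i ≤ j) (Φ : Ch P j) : Ch P i where
  face l := Φ.face (Fin.castLE hij l)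
  isFace l := Φ.isFace _
  dim l := Φ.dim _
  mono _ _ h := Φ.mono h

theorem pt_mono (hF : S_FACES) (hVF : S_VF) (hI : S_INV) (hι : S_IOTA) (hSH : S_SH) (hE : S_EXT)
    {i j d : ℕ} {P : Set (E (d + 1))} {H : Subgroup (E (d + 1) ≃ₗᵢ[ℝ] E (d + 1))}
    (hP : IsPolytope P) (hij : i ≤ j) (hj : j ≤ d + 1) (h : PT j H P) : PT i H P := by
  intro Φ Ψ
  obtain ⟨Φ₁, h1⟩ := extend hF hVF hI hι hSH hE i d P hP (hij.trans hj) Φ
  obtain ⟨Ψ₁, h2⟩ := extend hF hVF hI hι hSH hE i d P hP (hij.trans hj) Ψ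
  obtain ⟨g, hg, h3⟩ := h (trunc hj Φ₁) (trunc hj Ψ₁)
  refine ⟨g, hg, fun l => ?_⟩
  rw [← h1 l, ← h2 l]
  exact h3 (Fin.castLE hij l)

/-- transitivity on the vertices -/
theorem trans_vx {d : ℕ} {P : Set (E d)} {H : Subgroup (E d ≃ₗᵢ[ℝ] E d)} (h : PT 1 H P)
    {v w : E d} (hv : Vx P v) (hw : Vx P w) : ∃ g ∈ H, g v = w := by
  have mk : ∀ v, Vx P v → ∃ Φ : Ch P 1, Φ.face 0 = {v} := fun v hv =>
    ⟨⟨fun _ => {v}, fun _ => hv, fun i => by
      have : (i : ℕ) = 0 := by omega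
      rw [this]
      exact Pool.Agent.T9h67.NK.dm_singleton v, fun _ _ _ => le_rfl⟩, rfl⟩
  obtain ⟨Φ, h1⟩ := mk v hv
  obtain ⟨Ψ, h2⟩ := mk w hw
  obtain ⟨g, hg, h3⟩ := h Φ Ψ
  refine ⟨g, hg, ?_⟩
  have := h3 0
  rw [h1, h2, image_singleton] at this
  exact singleton_injective this

end Pool.Agent.T9h48.NK
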