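import Pool.Agent.T9h48.NK.Qj
import Pool.Agent.T9h47.NK.Metric
import Pool.Agent.T9h44.NK.SpecB2

/-!
# Project NK, piece (QJ2) (helper48)
-/

set_option autoImplicit false

open Set
open scoped RealInnerProductSpace

namespace Pool.Agent.T9h48.NK

open Pool.Agent.T9h98.DC Pool.Agent.T9h44.NK

/-- **(QJ2)** -/
theorem qj2 (hF : S_FACES) (hVF : S_VF) (hI : S_INV) (hι : S_IOTA) (hSH : S_SH) (hEXT : S_EXT)
    (hC : S_CONE) (hTR : S_TR) (hM0 : S_M0) (hM1 : S_M1) (hRSC : S_RSC) (hSTEPL : S_STEPL)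
    (hSUM : S_SUM0) : S_QJ2 := by
  intro j
  induction j with
  | zero =>
    intro _ n hn P H c hP hH hU hE hc0 hc hPT
    have h1 : PT 1 H P := pt_mono hF hVF hI hι hSH hEXT hP (by omega) (by omega) hPT
    have hfin : {v | Vx P v}.Finite := (hF (n + 1) P hP.1).2.2.1
    have hS : ∀ v, v ∈ hfin.toFinset ↔ Vx P v := fun v => by simp
    have hc8 : c < 1 / 8 := by simpa using hc
    exact Pool.Agent.T9h47.NK.imp hF hC (by omega) hP hc0 hc8 hU hE
      (hM0 n P c hP hU hE (by linarith)) hfin.toFinset hS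
      (hSUM (n + 1) P H hfin.toFinset hP hH (fun v w hv hw => trans_vx h1 hv hw) hS)
  | succ j ih =>
    intro hj n hn P H c hP hH hU hE hc0 hc hPT
    have hj5 : (j : ℝ) + 1 ≤ 6 := by exact_mod_cast hj
    have hc2 : c < 1 / (7 - j) := by
      have e : (8 : ℝ) - ((j + 1 : ℕ) : ℝ) = 7 - j := by
        push_cast
        ring
      rwa [e] at hc
    have hpos : (0 : ℝ) < 7 - j := by linarith
    have hhalf : c < 1 / 2 := hc2.trans_le (one_div_le_one_div_of_le (by norm_num) (by linarith))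
    have h3 : PT 3 H P := pt_mono hF hVF hI hι hSH hEXT hP (by omega) (by omega) hPT
    rcases hSTEPL n (by omega) P H c hP hH hU hE hc0 (by linarith) h3 with h | h
    · obtain ⟨r1, r2⟩ := hRSC n P c hP hU hE
      rcases h with h | h
      · exact absurd (r1 h) (by linarith)
      · have h4 := r2 h
        have h5 : (6 : ℝ) ≤ (n : ℝ) + 1 := by
          have : 5 ≤ n := by omega
          have : (5 : ℝ) ≤ n := by exact_mod_cast this
          linarith
        have h6 : 2 / ((n : ℝ) + 1) ≤ 2 / 6 :=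
          div_le_div_of_nonneg_left (by norm_num) (by norm_num) h5
        linarith
    · obtain ⟨m, rfl⟩ : ∃ m, n = m + 1 := ⟨n - 1, by omega⟩
      obtain ⟨P', H', p1, p2, p3, p4, p5⟩ :=
        fig_step hF hVF hι hTR hM1 hP hH hU hE hc0 (by linarith) h
      refine ih (by omega) m (by omega) P' H' (c / (1 + c)) p1 p2 p3 p4 (by positivity) ?_
        (p5 (j + 2) hPT)
      rw [div_lt_div_iff₀ (by positivity) (by linarith)]
      rw [lt_div_iff₀ hpos] at hc2
      nlinarith

end Pool.Agent.T9h48.NK
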