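import Pool.Agent.T9h48.NK.TrCore

/-!
# Project NK, piece (TR) (helper48): transfer of transitivity and of the number of orbits
-/

set_option autoImplicit false

open Set
open scoped RealInnerProductSpace

namespace Pool.Agent.T9h48.NK

open Pool.Agent.T9h98.DC Pool.Agent.T9h44.NK

/-- **(TR)** -/
theorem tr (hF : S_FACES) (hVF : S_VF) (hSH : S_SH) (hEXT : S_EXT) : S_TR := by
  intro d P H v n ι hP hH hv hsup hn0 hO hst
  obtain ⟨-, -, -, hdet⟩ := hVF d P v n ι hP hv hsup hn0 hO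
  have hsh := hSH d P v n ι hP hv hsup hn0 hO
  -- faces through `v` are determined by their figures
  have heq : ∀ F G, IsFace P F → IsFace P G → v ∈ F → v ∈ G → fig v n ι F = fig v n ι G →
      F = G := fun F G h1 h2 h3 h4 h5 =>
    (hdet F G h1 h2 h3 h4 h5.subset).antisymm (hdet G F h2 h1 h4 h3 h5.symm.subset)
  -- from a map of chains through `v` to a map of the chains of the figure
  have down : ∀ (j : ℕ) (Φ Ψ : Ch P (j + 1)) (Φ' Ψ' : Ch (fig v n ι P) j),
      Φ.face 0 = {v} → Ψ.face 0 = {v} →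
      (∀ i : Fin j, fig v n ι (Φ.face i.succ) = Φ'.face i) →
      (∀ i : Fin j, fig v n ι (Ψ.face i.succ) = Ψ'.face i) →
      (∃ h ∈ H, ∀ i, h '' Φ.face i = Ψ.face i) →
      ∃ k ∈ figH H v ι, ∀ i, k '' Φ'.face i = Ψ'.face i := by
    intro j Φ Ψ Φ' Ψ' h1 h2 h3 h4 ⟨h, hh, h5⟩
    have hhv : h v = v := by
      have := h5 0
      rw [h1, h2, image_singleton] at this
      exact singleton_injective this
    obtain ⟨k, hk, hk'⟩ := core1 hn0 hO hst hh hhv
    exact ⟨k, hk, fun i => by rw [← h3, ← h4, ← hk', h5]⟩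
  refine ⟨?_, ?_, ?_, ?_, ?_⟩
  · intro k hk
    obtain ⟨h, hh, -, hk'⟩ := core2 hst hk
    rw [← hk', hH h hh]
  · intro j hPT Φ' Ψ'
    obtain ⟨Φ, h1, h2⟩ := (hsh j).1 Φ'
    obtain ⟨Ψ, h3, h4⟩ := (hsh j).1 Ψ'
    exact down j Φ Ψ Φ' Ψ' h1 h3 h2 h4 (hPT Φ Ψ)
  · intro j htr hPT Φ Ψ
    -- every chain can be moved to one through `v`
    have move : ∀ Φ : Ch P (j + 1), ∃ g ∈ H, ∃ Φ₁ : Ch P (j + 1), Φ₁.face 0 = {v} ∧
        ∀ i, g '' Φ₁.face i = Φ.face i := by
      intro Φ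
      obtain ⟨w, hw⟩ : ∃ w, Φ.face 0 = {w} := by
        refine (hF (d + 1) P hP.1).2.2.2.2.2.2.1 _ (Φ.isFace 0) ?_
        rw [Φ.dim 0]
        rfl
      have hwv : Vx P w := by
        have := Φ.isFace 0
        rw [hw] at this
        exact this
      obtain ⟨g, hg, hgw⟩ := htr w hwv
      have hg' : g.symm '' P = P := hH _ (H.inv_mem hg)
      refine ⟨g, hg, mapCh g.symm hg' Φ, ?_, fun i => ?_⟩
      · show g.symm '' Φ.face 0 = {v}
        rw [hw, image_singleton, ← hgw]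
        congr 1
        exact g.symm_apply_apply v
      · show g '' (g.symm '' Φ.face i) = Φ.face i
        rw [← image_comp]
        have : (g : E (d + 1) → E (d + 1)) ∘ g.symm = id := by
          funext x
          exact g.apply_symm_apply x
        rw [this, image_id]
    obtain ⟨g, hg, Φ₁, a1, a2⟩ := move Φ
    obtain ⟨g', hg', Ψ₁, b1, b2⟩ := move Ψ
    obtain ⟨Φ', c1⟩ := (hsh j).2 Φ₁ a1
    obtain ⟨Ψ', c2⟩ := (hsh j).2 Ψ₁ b1
    obtain ⟨k, hk, hk'⟩ := hPT Φ' Ψ'
    obtain ⟨h, hh, hhv, hk2⟩ := core2 hst hk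
    have key : ∀ i, h '' Φ₁.face i = Ψ₁.face i := by
      intro i
      have m1 : ∀ (Θ : Ch P (j + 1)), Θ.face 0 = {v} → ∀ i, v ∈ Θ.face i := fun Θ h0 i => by
        apply Θ.mono (Fin.zero_le i)
        rw [h0]
        rfl
      refine Fin.cases ?_ (fun i => ?_) i
      · rw [a1, b1, image_singleton, hhv]
      · refine heq _ _ (face_image h (hH h hh) (Φ₁.isFace _)) (Ψ₁.isFace _) ?_ (m1 Ψ₁ b1 _) ?_
        · exact ⟨v, m1 Φ₁ a1 _, hhv⟩
        · rw [hk2, c1, c2, hk']
    refine ⟨g' * h * g⁻¹, H.mul_mem (H.mul_mem hg' hh) (H.inv_mem hg), fun i => ?_⟩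
    rw [← a2 i, ← b2 i, ← key i, ← image_comp, ← image_comp]
    congr 1
    funext x
    show g' (h (g.symm (g x))) = g' (h x)
    rw [g.symm_apply_apply]
  · intro k hFew Φ'
    choose Φ h1 h2 using fun i => (hsh d).1 (Φ' i)
    obtain ⟨i, j, hij, h3⟩ := hFew Φ
    exact ⟨i, j, hij, down d (Φ i) (Φ j) (Φ' i) (Φ' j) (h1 i) (h1 j) (h2 i) (h2 j) h3⟩
  · rintro k hFew ⟨w, hw, hw'⟩ Φ'
    choose Φ h1 h2 using fun i => (hsh d).1 (Φ' i)
    obtain ⟨Ψ, hΨ⟩ := hEXT d P w hP hw
    obtain ⟨i, j, hij, h, hh, h3⟩ := hFew (Fin.cons Ψ Φ)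
    have hz : ∀ j : Fin (k + 1), ((Fin.cons Ψ Φ : Fin (k + 1 + 1) → Ch P (d + 1)) j.succ) = Φ j :=
      fun j => Fin.cons_succ _ _ _
    have hz0 : ((Fin.cons Ψ Φ : Fin (k + 1 + 1) → Ch P (d + 1)) 0) = Ψ := Fin.cons_zero _ _
    induction i using Fin.cases with
    | zero =>
      induction j using Fin.cases with
      | zero => exact absurd rfl hij
      | succ j =>
        exfalso
        have := h3 0
        rw [hz0, hz, hΨ, h1, image_singleton] at this
        have e : h w = v := singleton_injective this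
        refine hw' h⁻¹ (H.inv_mem hh) ?_
        rw [← e]
        exact h.symm_apply_apply w
    | succ i =>
      induction j using Fin.cases with
      | zero =>
        exfalso
        have := h3 0
        rw [hz0, hz, hΨ, h1, image_singleton] at this
        exact hw' h hh (singleton_injective this)
      | succ j =>
        refine ⟨i, j, fun e => hij (by rw [e]), down d (Φ i) (Φ j) (Φ' i) (Φ' j) (h1 i) (h1 j)
          (h2 i) (h2 j) ⟨h, hh, fun l => ?_⟩⟩
        have := h3 l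
        rw [hz, hz] at this
        exact this

end Pool.Agent.T9h48.NK
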