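import Pool.Agent.T9h48.NK.Qj5
import Pool.Agent.T9h40.NK.Imp

/-!
# Project NK, piece (IMPT) from (TIGHT) (helper48; the proof is helper40's)
-/

set_option autoImplicit false

open Set Finset
open scoped RealInnerProductSpace

namespace Pool.Agent.T9h48.NK

open Pool.Agent.T9h98.DC Pool.Agent.T9h44.NK

/-- **TIGHT.** The vertices are a tight frame. -/
def S_TIGHT : Prop := ∀ (n : ℕ) (P : Set (E (n + 1)))
    (H : Subgroup (E (n + 1) ≃ₗᵢ[ℝ] E (n + 1))) (S : Finset (E (n + 1))), 1 ≤ n →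
  IsPolytope P → Pres H P → UV P → PT 2 H P → (∀ v, v ∈ S ↔ Vx P v) →
    ∀ x, ∑ u ∈ S, ⟪u, x⟫ ^ 2 = ((S.card : ℝ) / (n + 1)) * ‖x‖ ^ 2

/-- the numbers -/
theorem impt_num {D g m c q σ : ℝ} (hD : 9 ≤ D) (hg : 0 ≤ g) (hc : 1 / 6 ≤ c) (hc3 : c < 1 / 3)
    (h1 : 1 + g * c + σ = 0) (h2 : (2 * c - 1) * σ ≤ q) (h3 : σ ≤ m * (2 * c - 1))
    (h4 : 1 + g * c ^ 2 + q = (1 + g + m) / D) : False := by
  have hD0 : 0 < D := by linarith
  have hσ : σ = -(1 + g * c) := by linarith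
  subst hσ
  rw [eq_div_iff hD0.ne'] at h4
  have h5 : (1 + g * c ^ 2 + (1 - 2 * c) * (1 + g * c)) * D ≤ 1 + g + m := by
    rw [← h4]
    apply mul_le_mul_of_nonneg_right _ hD0.le
    linarith
  have h6 : (1 + g * c ^ 2 + (1 - 2 * c) * (1 + g * c)) * D * (1 - 2 * c) ≤
      (1 + g + m) * (1 - 2 * c) := mul_le_mul_of_nonneg_right h5 (by linarith)
  have h7 : (1 - c) * (D * (1 - 2 * c) * (2 + g * c)) ≤ (1 - c) * (2 + g) := by
    have e1 : (1 + g * c ^ 2 + (1 - 2 * c) * (1 + g * c)) * D * (1 - 2 * c) =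
        (1 - c) * (D * (1 - 2 * c) * (2 + g * c)) := by ring
    rw [e1] at h6
    have e2 : (1 + g + m) * (1 - 2 * c) ≤ (1 - c) * (2 + g) := by
      have : m * (1 - 2 * c) ≤ 1 + g * c := by linarith
      nlinarith
    linarith
  have h8 : D * (1 - 2 * c) * (2 + g * c) ≤ 2 + g := le_of_mul_le_mul_left h7 (by linarith)
  have h9 : 1 ≤ D * (c * (1 - 2 * c)) := by
    have a1 : 1 ≤ 9 * (c * (1 - 2 * c)) := by nlinarith
    have a2 : 0 ≤ c * (1 - 2 * c) := by nlinarith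
    nlinarith
  have h10 : 3 ≤ D * (1 - 2 * c) := by nlinarith
  have h11 : g ≤ g * (D * (c * (1 - 2 * c))) := by nlinarith
  have e3 : D * (1 - 2 * c) * (2 + g * c) = 2 * (D * (1 - 2 * c)) +
      g * (D * (c * (1 - 2 * c))) := by ring
  rw [e3] at h8
  linarith

/-- **(IMPT)** -/
theorem impt (hF : S_FACES) (hVF : S_VF) (hI : S_INV) (hι : S_IOTA) (hSH : S_SH) (hEXT : S_EXT)
    (hC : S_CONE) (hM0 : S_M0) (hSUM : S_SUM0) (hT : S_TIGHT) : BaseB 3 8 := by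
  classical
  intro n hn P H c hP hH hU hE hc0 hc hPT
  have hc3 : c < 1 / 3 := by exact_mod_cast hc
  have h1 : PT 1 H P := pt_mono hF hVF hI hι hSH hEXT hP (by omega) (by omega) hPT
  have hfin : {v | Vx P v}.Finite := (hF (n + 1) P hP.1).2.2.1
  obtain ⟨S, hS⟩ : ∃ S : Finset (E (n + 1)), ∀ v, v ∈ S ↔ Vx P v := ⟨hfin.toFinset, fun v => by simp⟩
  have hPC := hM0 n P c hP hU hE (by linarith)
  have hsum := hSUM (n + 1) P H S hP hH (fun v w hv hw => trans_vx h1 hv hw) hS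
  rcases lt_or_ge c (1 / 6) with h6 | h6
  · exact Pool.Agent.T9h40.NK.imp7 hF hC (by omega) hP hc0 h6 hU hE hPC S hS hsum
  obtain ⟨v, hv⟩ := ((hF (n + 1) P hP.1).2.2.2.2.1 (nonempty_of hP)).2
  have hvS : v ∈ S := (hS v).2 hv
  have split : ∀ f : E (n + 1) → ℝ, ∑ u ∈ S, f u = f v +
      (∑ u ∈ (S.erase v).filter (fun u => Adj P v u), f u +
        ∑ u ∈ (S.erase v).filter (fun u => ¬ Adj P v u), f u) := by
    intro f
    rw [Finset.sum_filter_add_sum_filter_not, Finset.add_sum_erase S f hvS]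
  obtain ⟨A, hA⟩ : ∃ A, A = (S.erase v).filter (fun u => Adj P v u) := ⟨_, rfl⟩
  obtain ⟨M, hM⟩ : ∃ M, M = (S.erase v).filter (fun u => ¬ Adj P v u) := ⟨_, rfl⟩
  rw [← hA, ← hM] at split
  have vv : ⟪v, v⟫ = 1 := by rw [real_inner_self_eq_norm_sq, hU v hv]; norm_num
  have hAc : ∀ u ∈ A, ⟪v, u⟫ = c := by
    intro u hu
    rw [hA, Finset.mem_filter] at hu
    exact hE v u hu.2
  have hMk : ∀ u ∈ M, ⟪v, u⟫ ≤ 2 * c - 1 := by
    intro u hu
    rw [hM, Finset.mem_filter, Finset.mem_erase] at hu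
    exact Pool.Agent.T9h47.NK.kl hF hC hP (by linarith) hU hE hPC v u hv ((hS u).1 hu.1.2)
      hu.1.1.symm hu.2
  -- the number of the vertices
  have e0 : (S.card : ℝ) = 1 + A.card + M.card := by
    have := split (fun _ => 1)
    simp only [Finset.sum_const, nsmul_eq_mul, mul_one] at this
    rw [this]
    ring
  -- the sum
  have e1 : 1 + (A.card : ℝ) * c + ∑ u ∈ M, ⟪v, u⟫ = 0 := by
    have h := split (fun u => ⟪v, u⟫)
    rw [← inner_sum, hsum, inner_zero_right, vv, Finset.sum_congr rfl hAc, Finset.sum_const,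
      nsmul_eq_mul] at h
    linarith
  -- the squares
  have e2 : 1 + (A.card : ℝ) * c ^ 2 + ∑ u ∈ M, ⟪v, u⟫ ^ 2 =
      (1 + (A.card : ℝ) + M.card) / ((n : ℝ) + 1) := by
    have h := hT n P H S (by omega) hP hH hU hPT hS v
    have h' : ∑ u ∈ S, ⟪u, v⟫ ^ 2 = ∑ u ∈ S, ⟪v, u⟫ ^ 2 :=
      Finset.sum_congr rfl fun u _ => by rw [real_inner_comm]
    rw [h', split (fun u => ⟪v, u⟫ ^ 2), hU v hv, e0] at h
    have h2 : ∑ u ∈ A, ⟪v, u⟫ ^ 2 = (A.card : ℝ) * c ^ 2 := by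
      rw [← nsmul_eq_mul, ← Finset.sum_const]
      exact Finset.sum_congr rfl fun u hu => by rw [hAc u hu]
    rw [h2, vv] at h
    linarith
  refine impt_num (D := (n : ℝ) + 1) (g := A.card) (m := M.card) (c := c)
    (q := ∑ u ∈ M, ⟪v, u⟫ ^ 2) (σ := ∑ u ∈ M, ⟪v, u⟫) ?_ (by positivity) h6 hc3 e1 ?_ ?_ e2
  · have : (8 : ℝ) ≤ n := by exact_mod_cast hn
    linarith
  · rw [Finset.mul_sum]
    refine Finset.sum_le_sum fun u hu => ?_
    have := hMk u hu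
    nlinarith
  · rw [← nsmul_eq_mul]
    exact Finset.sum_le_card_nsmul _ _ _ hMk

end Pool.Agent.T9h48.NK
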