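import Pool.Agent.T9h48.NK.Qj

/-!
# Project NK, piece (LL) (helper48)
-/

set_option autoImplicit false

open Set
open scoped RealInnerProductSpace

namespace Pool.Agent.T9h48.NK

open Pool.Agent.T9h98.DC Pool.Agent.T9h44.NK

/-- **(LL)** -/
theorem ll (hF : S_FACES) (hVF : S_VF) (hI : S_INV) (hι : S_IOTA) (hSH : S_SH) (hEXT : S_EXT)
    (hTR : S_TR) (hM1 : S_M1) (hECP : S_ECP) (hL1 : S_L1) (hL2 : S_L2) (hSTEPL : S_STEPL)
    (hQJ : S_QJ) (hSCL : S_SCL) : S_LL := by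
  intro n hn P H hP hH hPT
  have hmono : ∀ i, i ≤ 8 → PT i H P := fun i hi =>
    pt_mono hF hVF hI hι hSH hEXT hP hi (by omega) hPT
  -- the vertices have the same norm
  obtain ⟨v₀, hv₀⟩ := ((hF (n + 1) P hP.1).2.2.2.2.1 (nonempty_of hP)).2
  have hnorm : ∀ v, Vx P v → ‖v‖ = ‖v₀‖ := by
    intro v hv
    obtain ⟨g, -, hg⟩ := trans_vx (hmono 1 (by norm_num)) hv₀ hv
    rw [← hg, g.norm_map]
  have hr : 0 < ‖v₀‖ := by
    rw [norm_pos_iff]
    rintro rfl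
    obtain ⟨y, hy, hy0⟩ := Pool.Agent.T9h67.NK.exists_ne hP (0 : E (n + 1))
    have h1 : {v | Vx P v} ⊆ ({0} : Set (E (n + 1))) := fun v hv => by
      have := hnorm v hv
      rw [norm_zero, norm_eq_zero] at this
      exact this
    have h2 := ((hF (n + 1) P hP.1).1 P ((hF (n + 1) P hP.1).2.2.2.2.1 (nonempty_of hP)).1).2
    rw [h2] at hy
    have h3 : {v | Vx P v ∧ v ∈ P} ⊆ ({0} : Set (E (n + 1))) := fun v hv => h1 hv.1
    have h4 := convexHull_mono h3 hy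
    rw [convexHull_singleton] at h4
    exact hy0 h4
  -- scaling
  obtain ⟨q1, q2, q3, q4, q5⟩ := hSCL (n + 1) P H ‖v₀‖⁻¹ (by positivity) hP hH _ rfl
  refine q5 ?_
  set P' := (fun x : E (n + 1) => ‖v₀‖⁻¹ • x) '' P with hP'
  have hU : UV P' := by
    intro v hv
    have h1 := hnorm _ (q3 v hv)
    rw [inv_inv, norm_smul, norm_norm] at h1
    have h2 : ‖v₀‖ * ‖v‖ = ‖v₀‖ * 1 := by rw [h1, mul_one]
    exact mul_left_cancel₀ hr.ne' h2
  have hPT' : ∀ i, i ≤ 8 → PT i H P' := fun i hi => q4 i (hmono i hi)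
  obtain ⟨c, hc1, hE⟩ := hECP n P' H q1 q2 hU (hPT' 2 (by norm_num))
  rcases lt_trichotomy c 0 with hc | rfl | hc
  · exact Or.inl (hL1 n P' c q1 hU hE hc).1
  · exact Or.inr (Or.inl (hL2 n P' H q1 q2 hU hE (hPT' 2 (by norm_num))))
  · rcases hSTEPL n (by omega) P' H c q1 q2 hU hE hc hc1 (hPT' 3 (by norm_num)) with h | h
    · rcases h with h | h
      · exact Or.inl h
      · exact Or.inr (Or.inr h)
    · exfalso
      obtain ⟨m, rfl⟩ : ∃ m, n = m + 1 := ⟨n - 1, by omega⟩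
      obtain ⟨P₁, H₁, p1, p2, p3, p4, p5⟩ :=
        fig_step hF hVF hι hTR hM1 q1 q2 hU hE hc hc1 h
      refine hQJ 5 le_rfl m (by omega) P₁ H₁ (c / (1 + c)) p1 p2 p3 p4 (by positivity) ?_
        (p5 7 (hPT' 8 le_rfl))
      rw [div_lt_div_iff₀ (by positivity) (by norm_num)]
      push_cast
      linarith

end Pool.Agent.T9h48.NK
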