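import Pool.Agent.T9h48.NK.TrCore

/-!
# Project NK, piece (N1) (helper48): the numbers of orbits are additive over the vertex orbits
-/

set_option autoImplicit false

open Set
open scoped RealInnerProductSpace

namespace Pool.Agent.T9h48.NK

open Pool.Agent.T9h98.DC Pool.Agent.T9h44.NK

variable {d : ℕ}

/-- from a map of chains through `v` to a map of the chains of the figure -/
theorem down_fig {P : Set (E (d + 1))} {H : Subgroup (E (d + 1) ≃ₗᵢ[ℝ] E (d + 1))}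
    {v n : E (d + 1)} {ι : E d →ₗᵢ[ℝ] E (d + 1)} (hn0 : n ≠ 0) (hO : Ort n ι)
    (hst : ∀ h ∈ H, h v = v → h n = n) {j : ℕ} {Φ Ψ : Ch P (j + 1)}
    {Φ' Ψ' : Ch (fig v n ι P) j} (h1 : Φ.face 0 = {v}) (h2 : Ψ.face 0 = {v})
    (h3 : ∀ i : Fin j, fig v n ι (Φ.face i.succ) = Φ'.face i)
    (h4 : ∀ i : Fin j, fig v n ι (Ψ.face i.succ) = Ψ'.face i)
    (h : ∃ h ∈ H, ∀ i, h '' Φ.face i = Ψ.face i) :
    ∃ k ∈ figH H v ι, ∀ i, k '' Φ'.face i = Ψ'.face i := by
  obtain ⟨h, hh, h5⟩ := h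
  have hhv : h v = v := by
    have := h5 0
    rw [h1, h2, image_singleton] at this
    exact singleton_injective this
  obtain ⟨k, hk, hk'⟩ := core1 hn0 hO hst hh hhv
  exact ⟨k, hk, fun i => by rw [← h3, ← h4, ← hk', h5]⟩

/-- **(N1)** if `v`, `w` are in different orbits and the figure at `w` has more than `a` orbits, then the figure at `v` has
at most `b` orbits, `k ≤ a + b + 1` -/
theorem n1 (hSH : S_SH) {P : Set (E (d + 1))} {H : Subgroup (E (d + 1) ≃ₗᵢ[ℝ] E (d + 1))}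
    {v w n m : E (d + 1)} {ι κ : E d →ₗᵢ[ℝ] E (d + 1)} (hP : IsPolytope P)
    (hv : Vx P v) (hsv : Sup P v n) (hn0 : n ≠ 0) (hO : Ort n ι)
    (hst : ∀ h ∈ H, h v = v → h n = n)
    (hw : Vx P w) (hsw : Sup P w m) (hm0 : m ≠ 0) (hO' : Ort m κ)
    (hst' : ∀ h ∈ H, h w = w → h m = m)
    (hne : ∀ h ∈ H, h w ≠ v) {k a b : ℕ} (hk : k ≤ a + b + 1) (hFew : Few k H P)
    (hna : ¬ Few a (figH H w κ) (fig w m κ P)) : Few b (figH H v ι) (fig v n ι P) := by
  intro Φ'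
  unfold Few at hna
  push Not at hna
  obtain ⟨Θ', hΘ'⟩ := hna
  choose Φ h1 h2 using fun i => (hSH d P v n ι hP hv hsv hn0 hO d).1 (Φ' i)
  choose Θ h3 h4 using fun i => (hSH d P w m κ hP hw hsw hm0 hO' d).1 (Θ' i)
  have hlt : ∀ i : Fin (k + 1), ¬ (i : ℕ) < a + 1 → (i : ℕ) - (a + 1) < b + 1 := fun i hi => by
    have := i.2
    omega
  obtain ⟨i, j, hij, h, hh, h5⟩ := hFew (fun i : Fin (k + 1) =>
    if hi : (i : ℕ) < a + 1 then Θ ⟨i, hi⟩ else Φ ⟨(i : ℕ) - (a + 1), hlt i hi⟩)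
  by_cases hi : (i : ℕ) < a + 1
  · by_cases hj : (j : ℕ) < a + 1
    · exfalso
      simp only [dif_pos hi, dif_pos hj] at h5
      have hij' : (⟨i, hi⟩ : Fin (a + 1)) ≠ ⟨j, hj⟩ := by
        intro e
        apply hij
        ext
        simpa using e
      obtain ⟨g, hg, h6⟩ := down_fig hm0 hO' hst' (h3 ⟨i, hi⟩) (h3 ⟨j, hj⟩) (h4 ⟨i, hi⟩)
        (h4 ⟨j, hj⟩) ⟨h, hh, h5⟩
      obtain ⟨l, hl⟩ := hΘ' _ _ hij' g hg
      exact hl (h6 l)
    · exfalso
      simp only [dif_pos hi, dif_neg hj] at h5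
      have := h5 0
      rw [h3, h1, image_singleton] at this
      exact hne h hh (singleton_injective this)
  · by_cases hj : (j : ℕ) < a + 1
    · exfalso
      simp only [dif_neg hi, dif_pos hj] at h5
      have := h5 0
      rw [h3, h1, image_singleton] at this
      have e : h v = w := singleton_injective this
      refine hne h⁻¹ (H.inv_mem hh) ?_
      rw [← e]
      exact h.symm_apply_apply v
    · simp only [dif_neg hi, dif_neg hj] at h5
      refine ⟨⟨(i : ℕ) - (a + 1), hlt i hi⟩, ⟨(j : ℕ) - (a + 1), hlt j hj⟩, ?_,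
        down_fig hn0 hO hst (h1 _) (h1 _) (h2 _) (h2 _) ⟨h, hh, h5⟩⟩
      intro e
      apply hij
      ext
      have e' : (i : ℕ) - (a + 1) = (j : ℕ) - (a + 1) := by simpa using e
      omega

end Pool.Agent.T9h48.NK
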