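import Pool.Agent.T9h48.NK.Mono

/-!
# Project NK, piece (QJ) (helper48)
-/

set_option autoImplicit false

open Set
open scoped RealInnerProductSpace

namespace Pool.Agent.T9h48.NK

open Pool.Agent.T9h98.DC Pool.Agent.T9h44.NK

/-- what the figure at a vertex inherits if `STEPL` does not give a simplex or a cube -/
theorem fig_step (hF : S_FACES) (hVF : S_VF) (hι : S_IOTA) (hTR : S_TR) (hM1 : S_M1)
    {m : ℕ} {P : Set (E (m + 1))} {H : Subgroup (E (m + 1) ≃ₗᵢ[ℝ] E (m + 1))} {c : ℝ}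
    (hP : IsPolytope P) (hH : Pres H P) (hU : UV P) (hE : EC c P) (hc0 : 0 < c) (hc1 : c < 1)
    (h : ∀ (v : E (m + 1)) (ι : E m →ₗᵢ[ℝ] E (m + 1)) (l : ℝ), Vx P v → Ort v ι → 0 < l →
      UV (fig v (-l • v) ι P) → EC (c / (1 + c)) (fig v (-l • v) ι P)) :
    ∃ (P' : Set (E m)) (H' : Subgroup (E m ≃ₗᵢ[ℝ] E m)), IsPolytope P' ∧ Pres H' P' ∧ UV P' ∧
      EC (c / (1 + c)) P' ∧ ∀ j, PT (j + 1) H P → PT j H' P' := by
  obtain ⟨v, hv⟩ := ((hF (m + 1) P hP.1).2.2.2.2.1 (nonempty_of hP)).2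
  have hv1 : ‖v‖ = 1 := hU v hv
  have hv0 : v ≠ 0 := by
    rintro rfl
    simp at hv1
  obtain ⟨ι, hort, -⟩ := hι m v hv0
  obtain ⟨l, hl, hsup, hort', hn0, hU', -⟩ := hM1 m P v ι c hP hU hE (by linarith) hc1 hv hort
  obtain ⟨hfig, -⟩ := hVF m P v (-l • v) ι hP hv hsup hn0 hort'
  obtain ⟨t1, t2, -⟩ := hTR m P H v (-l • v) ι hP hH hv hsup hn0 hort' (fun g _ hgv => by
    rw [map_smul, hgv])
  exact ⟨_, _, hfig, t1, hU', h v ι l hv hort hl hU', t2⟩

/-- **(QJ)** -/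
theorem qj (hF : S_FACES) (hVF : S_VF) (hI : S_INV) (hι : S_IOTA) (hSH : S_SH) (hEXT : S_EXT)
    (hTR : S_TR) (hM1 : S_M1) (hTC : S_TC) (hRSC : S_RSC) (hSTEPL : S_STEPL) : S_QJ := by
  intro j
  induction j with
  | zero =>
    intro _ n _ P H c hP _ hU hE hc0 hc _
    refine hTC n P c hP hU hE hc0 ?_
    simpa using hc
  | succ j ih =>
    intro hj n hn P H c hP hH hU hE hc0 hc hPT
    have hj5 : (j : ℝ) + 1 ≤ 5 := by exact_mod_cast hj
    have hc2 : c < 1 / (6 - j) := by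
      have e : (7 : ℝ) - ((j + 1 : ℕ) : ℝ) = 6 - j := by
        push_cast
        ring
      rwa [e] at hc
    have hpos : (0 : ℝ) < 6 - j := by linarith
    have hhalf : c < 1 / 2 := hc2.trans_le (one_div_le_one_div_of_le (by norm_num) (by linarith))
    have h3 : PT 3 H P := pt_mono hF hVF hI hι hSH hEXT hP (by omega) (by omega) hPT
    rcases hSTEPL n (by omega) P H c hP hH hU hE hc0 (by linarith) h3 with h | h
    · obtain ⟨r1, r2⟩ := hRSC n P c hP hU hE
      rcases h with h | h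
      · exact absurd (r1 h) (by linarith)
      · have h4 := r2 h
        have h5 : (6 : ℝ) ≤ (n : ℝ) + 1 := by
          have : 5 ≤ n := by omega
          have : (5 : ℝ) ≤ n := by exact_mod_cast this
          linarith
        have h6 : 2 / ((n : ℝ) + 1) ≤ 2 / 6 :=
          div_le_div_of_nonneg_left (by norm_num) (by norm_num) h5
        linarith
    · obtain ⟨m, rfl⟩ : ∃ m, n = m + 1 := ⟨n - 1, by omega⟩
      obtain ⟨P', H', p1, p2, p3, p4, p5⟩ :=
        fig_step hF hVF hι hTR hM1 hP hH hU hE hc0 (by linarith) h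
      refine ih (by omega) m (by omega) P' H' (c / (1 + c)) p1 p2 p3 p4 (by positivity) ?_
        (p5 (j + 2) hPT)
      rw [div_lt_div_iff₀ (by positivity) (by linarith)]
      rw [lt_div_iff₀ hpos] at hc2
      nlinarith

end Pool.Agent.T9h48.NK
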