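import Pool.Agent.T9h48.NK.Qj
import Pool.Agent.T9h44.NK.SpecB2

/-!
# Project NK, pieces (QJ3), (QJ4) and the general form (helper48)
-/

set_option autoImplicit false

open Set
open scoped RealInnerProductSpace

namespace Pool.Agent.T9h48.NK

open Pool.Agent.T9h98.DC Pool.Agent.T9h44.NK

/-- **IMPX** the base: vertices on the unit sphere with sum `0`, adjacent ones with product `c < 1/a`, the others with
smaller product; impossible in dimension `≥ n0 + 1`. `imp7` is `S_IMPX 6 4`, `imp6` is `S_IMPX 5 16`. -/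
def S_IMPX (a n0 : ℕ) : Prop := ∀ (n : ℕ), n0 ≤ n → ∀ (P : Set (E (n + 1))) (c : ℝ)
    (S : Finset (E (n + 1))),
  IsPolytope P → 0 < c → c < 1 / a → UV P → EC c P → PC c P → (∀ v, v ∈ S ↔ Vx P v) →
    ∑ v ∈ S, v = 0 → False

/-- **QJX** -/
def S_QJX (a n0 : ℕ) : Prop := ∀ (j : ℕ), j + 2 ≤ a → ∀ (n : ℕ), n0 + j ≤ n →
    ∀ (P : Set (E (n + 1))) (H : Subgroup (E (n + 1) ≃ₗᵢ[ℝ] E (n + 1))) (c : ℝ),
  IsPolytope P → Pres H P → UV P → EC c P → 0 < c → c < 1 / (a - j) → PT (j + 2) H P → False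

/-- **QJ3** -/
def S_QJ3 : Prop := ∀ (j : ℕ), j ≤ 4 → ∀ (n : ℕ), 4 + j ≤ n → ∀ (P : Set (E (n + 1)))
    (H : Subgroup (E (n + 1) ≃ₗᵢ[ℝ] E (n + 1))) (c : ℝ),
  IsPolytope P → Pres H P → UV P → EC c P → 0 < c → c < 1 / (6 - j) → PT (j + 2) H P → False

/-- **QJ4** -/
def S_QJ4 : Prop := ∀ (j : ℕ), j ≤ 3 → ∀ (n : ℕ), 16 + j ≤ n → ∀ (P : Set (E (n + 1)))
    (H : Subgroup (E (n + 1) ≃ₗᵢ[ℝ] E (n + 1))) (c : ℝ),
  IsPolytope P → Pres H P → UV P → EC c P → 0 < c → c < 1 / (5 - j) → PT (j + 2) H P → False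

/-- **(QJX)**, general base -/
theorem qjx (hF : S_FACES) (hVF : S_VF) (hI : S_INV) (hι : S_IOTA) (hSH : S_SH) (hEXT : S_EXT)
    (hTR : S_TR) (hM0 : S_M0) (hM1 : S_M1) (hRSC : S_RSC) (hSTEPL : S_STEPL)
    (hSUM : S_SUM0) {a n0 : ℕ} (hn0 : 4 ≤ n0) (hX : S_IMPX a n0) : S_QJX a n0 := by
  intro j
  induction j with
  | zero =>
    intro ha n hn P H c hP hH hU hE hc0 hc hPT
    have h1 : PT 1 H P := pt_mono hF hVF hI hι hSH hEXT hP (by omega) (by omega) hPT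
    have hfin : {v | Vx P v}.Finite := (hF (n + 1) P hP.1).2.2.1
    have hS : ∀ v, v ∈ hfin.toFinset ↔ Vx P v := fun v => by simp
    have hca : c < 1 / (a : ℝ) := by simpa using hc
    have ha2 : (2 : ℝ) ≤ a := by exact_mod_cast ha
    have hc1 : c < 1 / 2 := hca.trans_le (one_div_le_one_div_of_le (by norm_num) ha2)
    exact hX n (by omega) P c hfin.toFinset hP hc0 hca hU hE
      (hM0 n P c hP hU hE (by linarith)) hS
      (hSUM (n + 1) P H hfin.toFinset hP hH (fun v w hv hw => trans_vx h1 hv hw) hS)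
  | succ j ih =>
    intro hj n hn P H c hP hH hU hE hc0 hc hPT
    have hj5 : (j : ℝ) + 1 + 2 ≤ a := by exact_mod_cast hj
    have hc2 : c < 1 / (a - 1 - j) := by
      have e : (a : ℝ) - ((j + 1 : ℕ) : ℝ) = a - 1 - j := by
        push_cast
        ring
      rwa [e] at hc
    have hpos : (0 : ℝ) < a - 1 - j := by linarith
    have hhalf : c < 1 / 2 := hc2.trans_le (one_div_le_one_div_of_le (by norm_num) (by linarith))
    have h3 : PT 3 H P := pt_mono hF hVF hI hι hSH hEXT hP (by omega) (by omega) hPT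
    rcases hSTEPL n (by omega) P H c hP hH hU hE hc0 (by linarith) h3 with h | h
    · obtain ⟨r1, r2⟩ := hRSC n P c hP hU hE
      rcases h with h | h
      · exact absurd (r1 h) (by linarith)
      · have h4 := r2 h
        have h5 : (6 : ℝ) ≤ (n : ℝ) + 1 := by
          have : 5 ≤ n := by omega
          have : (5 : ℝ) ≤ n := by exact_mod_cast this
          linarith
        have h6 : 2 / ((n : ℝ) + 1) ≤ 2 / 6 :=
          div_le_div_of_nonneg_left (by norm_num) (by norm_num) h5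
        linarith
    · obtain ⟨m, rfl⟩ : ∃ m, n = m + 1 := ⟨n - 1, by omega⟩
      obtain ⟨P', H', p1, p2, p3, p4, p5⟩ :=
        fig_step hF hVF hι hTR hM1 hP hH hU hE hc0 (by linarith) h
      refine ih (by omega) m (by omega) P' H' (c / (1 + c)) p1 p2 p3 p4 (by positivity) ?_
        (p5 (j + 2) hPT)
      rw [div_lt_div_iff₀ (by positivity) (by linarith)]
      rw [lt_div_iff₀ hpos] at hc2
      nlinarith

/-- **(QJ3)** from `imp7` -/
theorem qj3 (hF : S_FACES) (hVF : S_VF) (hI : S_INV) (hι : S_IOTA) (hSH : S_SH) (hEXT : S_EXT)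
    (hTR : S_TR) (hM0 : S_M0) (hM1 : S_M1) (hRSC : S_RSC) (hSTEPL : S_STEPL)
    (hSUM : S_SUM0) (hX : S_IMPX 6 4) : S_QJ3 := fun j hj n hn P H c h1 h2 h3 h4 h5 h6 h7 =>
  qjx hF hVF hI hι hSH hEXT hTR hM0 hM1 hRSC hSTEPL hSUM le_rfl hX j (by omega) n hn P H c
    h1 h2 h3 h4 h5 (by exact_mod_cast h6) h7

/-- **(QJ4)** from `imp6` -/
theorem qj4 (hF : S_FACES) (hVF : S_VF) (hI : S_INV) (hι : S_IOTA) (hSH : S_SH) (hEXT : S_EXT)
    (hTR : S_TR) (hM0 : S_M0) (hM1 : S_M1) (hRSC : S_RSC) (hSTEPL : S_STEPL)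
    (hSUM : S_SUM0) (hX : S_IMPX 5 16) : S_QJ4 := fun j hj n hn P H c h1 h2 h3 h4 h5 h6 h7 =>
  qjx hF hVF hI hι hSH hEXT hTR hM0 hM1 hRSC hSTEPL hSUM (by norm_num) hX j (by omega) n hn P H c
    h1 h2 h3 h4 h5 (by exact_mod_cast h6) h7

end Pool.Agent.T9h48.NK
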