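import Pool.Agent.T9h48.NK.Qj
import Pool.Agent.T9h44.NK.Spec5

/-!
# Project NK, pieces (QJ5), (QJ4) of `Spec5`, with the general form (helper48)
-/

set_option autoImplicit false

open Set
open scoped RealInnerProductSpace

namespace Pool.Agent.T9h48.NK

open Pool.Agent.T9h98.DC Pool.Agent.T9h44.NK

/-- the base: `c < 1/a`, `PT 2`, dimension `≥ n0 + 1` is impossible -/
def BaseB (a n0 : ℕ) : Prop := ∀ (n : ℕ), n0 ≤ n → ∀ (P : Set (E (n + 1)))
    (H : Subgroup (E (n + 1) ≃ₗᵢ[ℝ] E (n + 1))) (c : ℝ),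
  IsPolytope P → Pres H P → UV P → EC c P → 0 < c → c < 1 / (a : ℝ) → PT 2 H P → False

/-- **(QJB)**, general base -/
theorem qjb (hF : S_FACES) (hVF : S_VF) (hI : S_INV) (hι : S_IOTA) (hSH : S_SH) (hEXT : S_EXT)
    (hTR : S_TR) (hM1 : S_M1) (hRSC : S_RSC) (hSTEPL : S_STEPL) {a n0 : ℕ} (hn0 : 4 ≤ n0)
    (hB : BaseB a n0) : ∀ (j : ℕ), j + 2 ≤ a → ∀ (n : ℕ), n0 + j ≤ n →
    ∀ (P : Set (E (n + 1))) (H : Subgroup (E (n + 1) ≃ₗᵢ[ℝ] E (n + 1))) (c : ℝ),
    IsPolytope P → Pres H P → UV P → EC c P → 0 < c → c < 1 / ((a : ℝ) - j) → PT (j + 2) H P →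
      False := by
  intro j
  induction j with
  | zero =>
    intro _ n hn P H c hP hH hU hE hc0 hc hPT
    exact hB n (by omega) P H c hP hH hU hE hc0 (by simpa using hc) hPT
  | succ j ih =>
    intro hj n hn P H c hP hH hU hE hc0 hc hPT
    have hj5 : (j : ℝ) + 1 + 2 ≤ a := by exact_mod_cast hj
    have hc2 : c < 1 / (a - 1 - j) := by
      have e : (a : ℝ) - ((j + 1 : ℕ) : ℝ) = a - 1 - j := by
        push_cast
        ring
      rwa [e] at hc
    have hpos : (0 : ℝ) < a - 1 - j := by linarith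
    have hhalf : c < 1 / 2 := hc2.trans_le (one_div_le_one_div_of_le (by norm_num) (by linarith))
    have h3 : PT 3 H P := pt_mono hF hVF hI hι hSH hEXT hP (by omega) (by omega) hPT
    rcases hSTEPL n (by omega) P H c hP hH hU hE hc0 (by linarith) h3 with h | h
    · obtain ⟨r1, r2⟩ := hRSC n P c hP hU hE
      rcases h with h | h
      · exact absurd (r1 h) (by linarith)
      · have h4 := r2 h
        have h5 : (6 : ℝ) ≤ (n : ℝ) + 1 := by
          have : 5 ≤ n := by omega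
          have : (5 : ℝ) ≤ n := by exact_mod_cast this
          linarith
        have h6 : 2 / ((n : ℝ) + 1) ≤ 2 / 6 :=
          div_le_div_of_nonneg_left (by norm_num) (by norm_num) h5
        linarith
    · obtain ⟨m, rfl⟩ : ∃ m, n = m + 1 := ⟨n - 1, by omega⟩
      obtain ⟨P', H', p1, p2, p3, p4, p5⟩ :=
        fig_step hF hVF hι hTR hM1 hP hH hU hE hc0 (by linarith) h
      refine ih (by omega) m (by omega) P' H' (c / (1 + c)) p1 p2 p3 p4 (by positivity) ?_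
        (p5 (j + 2) hPT)
      rw [div_lt_div_iff₀ (by positivity) (by linarith)]
      rw [lt_div_iff₀ hpos] at hc2
      nlinarith

/-- **(QJ5)** -/
theorem qj5 (hF : S_FACES) (hVF : S_VF) (hI : S_INV) (hι : S_IOTA) (hSH : S_SH) (hEXT : S_EXT)
    (hTR : S_TR) (hM1 : S_M1) (hRSC : S_RSC) (hSTEPL : S_STEPL) (hB : S_B5) : S_QJ5 :=
  fun j hj n hn P H c h1 h2 h3 h4 h5 h6 h7 =>
    qjb hF hVF hI hι hSH hEXT hTR hM1 hRSC hSTEPL (a := 4) (n0 := 15) (by norm_num)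
      (fun n hn P H c g1 g2 g3 g4 g5 g6 g7 => hB n hn P H c g1 g2 g3 g4 g5 (by exact_mod_cast g6) g7)
      j (by omega) n hn P H c h1 h2 h3 h4 h5 (by exact_mod_cast h6) h7

/-- **(QJ4)** of `Spec5`, from `S_ABS4`, `S_FX` -/
theorem qj4' (hF : S_FACES) (hVF : S_VF) (hI : S_INV) (hι : S_IOTA) (hSH : S_SH) (hEXT : S_EXT)
    (hTR : S_TR) (hM1 : S_M1) (hRSC : S_RSC) (hSTEPL : S_STEPL) (hFX : S_FX) (hA : S_ABS4) :
    Pool.Agent.T9h44.NK.S_QJ4 := by
  intro j hj n hn P H c h1 h2 h3 h4 h5 h6 h7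
  refine qjb hF hVF hI hι hSH hEXT hTR hM1 hRSC hSTEPL (a := 3) (n0 := 302) (by norm_num)
      (fun n hn P H c g1 g2 g3 g4 g5 g6 g7 => ?_)
      j (by omega) n hn P H c h1 h2 h3 h4 h5 (by exact_mod_cast h6) h7
  have g6' : c < 1 / 3 := by exact_mod_cast g6
  obtain ⟨X, hX1, hX2⟩ := hFX n P H c g1 g2 g3 g4 g5 (by linarith) g7
  have := hA n (c / (1 + c)) X (by positivity) (by
    rw [div_lt_div_iff₀ (by positivity) (by norm_num)]
    linarith) hX2
  omega

end Pool.Agent.T9h48.NK
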